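import Pool.Agent.LongRange.Proof

open Pool.Agent.LongRange

namespace Pool.Agent.Results.MP_9aa340_pr.AllGroups

/-- Every countably infinite group admits a generating measure whose long-range
percolation has a finite critical parameter. -/
theorem result (Γ : Type*) [Group Γ] [Countable Γ] [Infinite Γ] :
    ∃ μ : GeneratingMeasure Γ, lambdaC μ < ⊤ :=
  exists_lambdaC_lt_top Γ

end Pool.Agent.Results.MP_9aa340_pr.AllGroups
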